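import Mathlib
import Pool.Agent.H451.KF.Def
import Pool.Agent.H451.XP.Def
import Pool.Graph.R_seed8.Y667.BKP.Def

/-!
# The order formula of Bloch and Kato for products of diagonal cubic hypersurfaces: definitions
-/

set_option autoImplicit false

namespace Pool.Agent.H451.XB

open NumberField Pool.Agent.H451.XP
open Pool.Agent.H451.CubT (DS E)
open Pool.Agent.TH841.SH.D (Gal act Pt)
open Pool.Agent.Y667.BKP (PSeq IsV H1f)
open scoped Classical

/-- `H⁰(K, V_p(W)) = 0`: the elements of `V_p(W)` fixed by the absolute Galois group of `K` are zero. -/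
def InvariantsZero {K : Type} [Field K] [NumberField K] (p : ℕ) (W : WeierstrassCurve K) : Prop :=
  ∀ x : PSeq W, IsV p W x → (∀ (σ : Gal K) (n : ℕ), act W σ.toAlgHom (x n) = x n) → ∀ n, x n = 0

/-- **The order formula of Bloch and Kato at `p = 3` for `X = V × Y_1 × ⋯ × Y_r` in all the codimensions
`i`**, both sides being zero: the `L`-function of `H^(2 i - 1)(X)` is entire and does not vanish at `s = i`
(`AllCodim`), and `H¹_f(K, V_3(E)) = H⁰(K, V_3(E)) = 0` for all the curves `E = E_{S,τ}`; the representation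
`H^(2 i - 1)(X, ℚ_3)(i)` is the direct sum of `V_3(E_{S,τ})`.  The same for every direct summand
`h¹(E_{S,τ})(1)` by itself: its `L`-function (`factor`: `1 - a_v N v ^ (-s) + N v ^ (1 - 2 s)`, `a_v` by the
number of the points) is entire and does not vanish at the centre `1`. -/
structure OrderFormula {K : Type} [Field K] [NumberField K] {m r : ℕ} {n : Fin r → ℕ}
    (a : Fin m → 𝓞 K) (b : ∀ t : Fin r, Fin (n t) → 𝓞 K) : Prop where
  /-- the `L`-functions of all the odd degrees, and the groups of the points -/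
  lfun : AllCodim a b
  /-- the `L`-functions of the `h¹(E_{S,τ})` -/
  piece : ∀ (S : Idx m) (τ : ∀ t, Ty (n t)), ∃ L : ℂ → ℂ, Differentiable ℂ L ∧ L 1 ≠ 0 ∧
    ∀ s : ℂ, 3 / 2 < s.re →
      HasProd (fun v : {v // Gdx a b v} => (KF.factor (DX a b S.1 τ) v.1 s)⁻¹) (L s)
  /-- `H¹_f = 0` -/
  selmer : ∀ (S : Idx m) (τ : ∀ t, Ty (n t)), ∀ x : H1f 3 (E ((DX a b S.1 τ : 𝓞 K) : K)), x = 0
  /-- `H⁰ = 0` -/
  invariants : ∀ (S : Idx m) (τ : ∀ t, Ty (n t)), InvariantsZero 3 (E ((DX a b S.1 τ : 𝓞 K) : K))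

end Pool.Agent.H451.XB
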