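import Mathlib
import Pool.Agent.H451.XB.Def
import Pool.Agent.H451.XP.A8
import Pool.Agent.H451.KF.LCH
import Pool.Agent.H451.KF.TR
import Pool.Agent.H451.KF.Asm1
import Pool.Agent.H508.Z.A1
import Pool.Graph.R_seed8.R390.NoInv

/-!
# The order formula for the products: the pieces
-/

set_option autoImplicit false
set_option linter.unusedSectionVars false
set_option linter.unusedVariables false

namespace Pool.Agent.H451.XB

open NumberField IsDedekindDomain Finset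
open Pool.Agent.Y692.QS (Ei w toC nr nr_mul nr_nonneg nr_zero_iff)
open Pool.Agent.Y715.T.RecG (Pq)
open Pool.Agent.Y696.CTK (parts ED pK eK)
open Pool.Agent.TH841.NF.D (Sha)
open Pool.Agent.H451.BB
open Pool.Agent.H451.XP
open Pool.Agent.H451.CubT (DS E Good Gd nm_P)
open Pool.Agent.H451.TB hiding share
open Pool.Agent.H451.JL (F sw nW GW eD)
open Pool.Agent.H451.JB hiding t_KEY S_KEY S_DQ S_BOX t_DQ t_BOX t_DQ'
open Pool.Agent.Y699.E (nrm nrm_cast nrm_mul nrm_one)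
open Pool.Agent.Y550.XK.NS (nrm_prod mod_iff)
open Pool.Agent.Y703.XK (SS c9)
open scoped Classical

section K
variable {K : Type} [Field K] [NumberField K] [IsCyclotomicExtension {3} ℚ K] (j : Ei ≃+* 𝓞 K)

/-- a monomial with trivial Selmer group: finitely many points and trivial `3`-primary part of the
Tate-Shafarevich group -/
theorem sha_mono (hj : ∀ z : Ei, Algebra.norm ℤ (j z) = nr z) {M X : ℕ} {r : Fin M → ℕ}
    (hr : ∀ l, r l = 4 ∨ r l = 7) {a : Fin M → 𝓞 K} (ha : a ∈ Box K r X) {e : Fin M → ZMod 3}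
    (he : Admissible r e) (h : (SelRoot ((twist a e : 𝓞 K) : K)).ncard = 3) :
    Finite (ED ((twist a e : 𝓞 K) : K)).toAffine.Point ∧
      ∀ (n : ℕ) (x : Sha (ED ((twist a e : 𝓞 K) : K))), 3 ^ n • x = 0 → x = 0 := by
  obtain ⟨S, hS, rfl⟩ := box_ex j hj X a fun i => by
    obtain ⟨h1, h2, h3, h4⟩ := ha i
    refine ⟨⟨h1, h2, ?_⟩, h3⟩
    rcases hr i with h5 | h5 <;> rw [h5] at h4 <;> push_cast at h4 <;> omega
  have hc : CondT {r} S := by
    rw [condT_single]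
    intro l
    have h4 := (ha l).2.2.2
    simp only [hj] at h4
    have h3 : (nrm (∏ π ∈ S l, π) : ℤ) = nr (∏ π ∈ S l, π) := nrm_cast _
    rw [← h3, nrm_prod] at h4
    exact_mod_cast h4
  have hSP := TT_Pq hS
  have hc' := (condT_single r S).1 hc
  have hU : ∀ π ∈ UN S, Pq π := fun π hπ => by
    obtain ⟨l, hl⟩ := (mem_UN S).1 hπ
    exact hSP l π hl
  obtain ⟨W, hW⟩ : ∃ W : Fin 1 → Fin M → F, W = fun _ => e := ⟨_, rfl⟩
  have h1 := (ranks_mono j hSP hc W (fun i => by rw [hW]; exact he) 0).1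
  have hW0 : W 0 = e := by rw [hW]
  rw [hW0] at h1
  have h2 : nW (wT W S 0) (UN S) = 3 := by
    rw [← h1]
    exact h
  have h4 : twist (fun l => j (∏ π ∈ S l, π)) e = j (mono (fun l => ∏ π ∈ S l, π) e) :=
    mono_map j _ _
  have h6 : ∏ π ∈ UN S, π ^ (exW W S 0 π / 3) ≠ 0 := by
    rw [Finset.prod_ne_zero_iff]
    exact fun π hπ => pow_ne_zero _ (hU π hπ).prime.ne_zero
  have h8 : ¬ (9 : ℤ) ∣ nr (mono (fun l => ∏ π ∈ S l, π) (W 0)) - 1 := by
    rw [mod_iff, nrm_mono W S 0 r hc', hW0]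
    exact he
  have h9 : ¬ (9 : ℤ) ∣ nr (eD 1 (wT W S 0) (UN S)) - 1 := by
    rwa [← nr_mono W S 0 hSP]
  have h10 := mono_cube W S 0
  rw [hW0] at h10
  rw [h4, h10]
  exact Pool.Agent.H508.Z.sha_base j
    (Pool.Agent.H451.JL.t_BASE (UN S) (wT W S 0) 1 hU one_ne_zero h2 h9) h9 h6

/-- the Euler factors -/
lemma factor_eq {d : Ei} {P : HeightOneSpectrum Ei} (h3 : ¬ Over3 P) (hd : ¬ rho P ∣ d) (s : ℂ) :
    KF.factor (j d) (eK j P) s = fac d s P := by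
  obtain ⟨e1, e2⟩ := KF.t_TR K j d P h3 hd
  have hxx := xc_sq h3 hd
  unfold KF.factor fac
  rw [e1, e2, ← KF.lch_np P s, ← hxx]
  ring

variable {m r : ℕ} {n : Fin r → ℕ} (a : Fin m → 𝓞 K) (b : ∀ t : Fin r, Fin (n t) → 𝓞 K)

/-- **the `L`-functions of the pieces** -/
theorem piece (hm : m = 3 ∨ m = 5 ∨ m = 7) (ha : ∀ i, a i ≠ 0)
    (hb : ∀ t i, b t i ≠ 0) (h : ZX (fun i => j.symm (a i)) (fun t i => j.symm (b t i)))
    (S : Idx m) (τ : ∀ t, Ty (n t)) : ∃ L : ℂ → ℂ, Differentiable ℂ L ∧ L 1 ≠ 0 ∧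
      ∀ s : ℂ, 3 / 2 < s.re →
        HasProd (fun v : {v // Gdx a b v} => (KF.factor (DX a b S.1 τ) v.1 s)⁻¹) (L s) := by
  have hi : ∀ x : 𝓞 K, x ≠ 0 → j.symm x ≠ 0 := fun x hx h => hx (by
    rw [← j.apply_symm_apply x, h, map_zero])
  have hbad := bad_finX (fun i => j.symm (a i)) (fun t i => j.symm (b t i))
    (fun i => hi _ (ha i)) (fun t i => hi _ (hb t i))
  set B : Finset (HeightOneSpectrum Ei) := hbad.toFinset with hB
  have hBm : ∀ P, P ∉ B ↔ GPX (fun i => j.symm (a i)) (fun t i => j.symm (b t i)) P := by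
    intro P
    rw [hB, Set.Finite.mem_toFinset]
    exact not_not
  obtain ⟨d, b', c', hd, hb0, hc0, hbc⟩ := h S τ
  obtain ⟨p1, p2, p3, -⟩ := base_all (K := K) j hd
  obtain ⟨L, h1, h2, h3⟩ := rem_cube p2 hb0 hc0 hbc p1 B fun P hP => by
    obtain ⟨g1, g2, g3⟩ := (hBm P).1 hP
    exact ⟨g1, ndvd_DX (rho_pq g1).prime g2 g3 S.1 τ⟩
  refine ⟨L, h1, h2, fun s hs => ?_⟩
  have h4 := h3 s hs
  have hDX : DX (fun i => j.symm (a i)) (fun t i => j.symm (b t i)) S.1 τ = j.symm (DX a b S.1 τ) :=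
    DX_map (j.symm : 𝓞 K →+* Ei) a b S.1 τ
  have h6 := (Equiv.hasProd_iff ((eK j).subtypeEquiv (p := fun P => P ∉ B) (q := Gdx a b)
    (fun P => (hBm P).trans (gdx_iff j a b hm P)))
    (f := fun v : {v // Gdx a b v} => (KF.factor (DX a b S.1 τ) v.1 s)⁻¹) (a := L s)).1
  apply h6
  refine h4.congr_fun fun P => ?_
  obtain ⟨g1, g2, g3⟩ := (hBm P.1).1 P.2
  have g4 := ndvd_DX (rho_pq g1).prime g2 g3 S.1 τ
  show (KF.factor (DX a b S.1 τ) (eK j P.1) s)⁻¹ = (fac (DX (fun i => j.symm (a i))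
    (fun t i => j.symm (b t i)) S.1 τ) s P.1)⁻¹
  rw [← factor_eq j g1 g4 s, hDX, j.apply_symm_apply]

end K

section
variable {m r : ℕ} {n : Fin r → ℕ}

/-- **trivial Selmer groups: the order formula** -/
theorem order_all (K : Type) [Field K] [NumberField K] [IsCyclotomicExtension {3} ℚ K]
    (hm : m = 3 ∨ m = 5 ∨ m = 7) (hn : ∀ t, n t = 2 ∨ n t = 4)
    {ρ : Fin m → ℕ} {σ : ∀ t : Fin r, Fin (n t) → ℕ} (h : Res ρ σ) {X : ℕ}
    {p : (Fin m → 𝓞 K) × (∀ t : Fin r, Fin (n t) → 𝓞 K)} (hp : p ∈ BoxX K ρ σ X)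
    (hs : ∀ (S : Idx m) (τ : ∀ t, Ty (n t)),
      (SelRoot ((DX p.1 p.2 S.1 τ : 𝓞 K) : K)).ncard = 3) : OrderFormula p.1 p.2 := by
  obtain ⟨⟨j, hj⟩, -⟩ := Pool.Agent.Y455.CTK.jex K
  have hZ : ZX (fun i => j.symm (p.1 i)) (fun t i => j.symm (p.2 t i)) := by
    intro S τ
    have h1 := hs S τ
    rw [← twist_pk p (S, τ)] at h1
    have h2 := base_mono j hj (res_pk h) ((box_iff ρ σ X p).1 hp) (res_adm h (S, τ)) h1
    rw [twist_pk] at h2
    have h4 : DX (fun i => j.symm (p.1 i)) (fun t i => j.symm (p.2 t i)) S.1 τ =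
        j.symm (DX p.1 p.2 S.1 τ) := DX_map (j.symm : 𝓞 K →+* Ei) p.1 p.2 S.1 τ
    rw [h4]
    exact h2
  have hsha : ∀ (S : Idx m) (τ : ∀ t, Ty (n t)),
      Finite (E ((DX p.1 p.2 S.1 τ : 𝓞 K) : K)).toAffine.Point ∧
        ∀ (k : ℕ) (x : Sha (E ((DX p.1 p.2 S.1 τ : 𝓞 K) : K))), 3 ^ k • x = 0 → x = 0 := by
    intro S τ
    have h1 := hs S τ
    rw [← twist_pk p (S, τ)] at h1
    have h2 := sha_mono j hj (res_pk h) ((box_iff ρ σ X p).1 hp) (res_adm h (S, τ)) h1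
    rw [twist_pk] at h2
    exact h2
  refine ⟨triv_all K hm hn h hp fun q => hs q.1 q.2, fun S τ => piece j p.1 p.2 hm
    (fun i => (hp.1 i).2.1.ne_zero) (fun t i => (hp.2 t i).2.1.ne_zero) hZ S τ,
    fun S τ => Pool.Agent.Y667.BKP.h1f_zero Nat.prime_three (hsha S τ).1 0 fun k x hx => ?_,
    fun S τ x hx hfix => Pool.Agent.R390.noinv (hsha S τ).1 x hx hfix⟩
  rw [pow_zero, one_smul]
  exact (hsha S τ).2 k x hx

end

end Pool.Agent.H451.XB
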