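import Mathlib
import Pool.Agent.H451.XB.A1

/-!
# The order formula for the products: the final theorem
-/

set_option autoImplicit false
set_option linter.unusedSectionVars false
set_option linter.unusedVariables false

namespace Pool.Agent.H451.XB

open NumberField IsDedekindDomain Finset
open Pool.Agent.H451.XP
open Pool.Agent.H451.TB (SelRoot rank prob)
open Pool.Agent.Y703.XK (SS c9)
open scoped Classical

/-- **A positive proportion of all `X`**, for a property which follows from trivial Selmer groups. -/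
theorem pos_prop (K : Type) [Field K] [NumberField K] [IsCyclotomicExtension {3} ℚ K] (m : ℕ)
    (hm : m = 3 ∨ m = 5 ∨ m = 7) (r : ℕ) (n : Fin r → ℕ) (hn : ∀ t, n t = 2 ∨ n t = 4)
    (P : (Fin m → 𝓞 K) × (∀ t : Fin r, Fin (n t) → 𝓞 K) → Prop)
    (hP : ∀ (ρ : Fin m → ℕ) (σ : ∀ t : Fin r, Fin (n t) → ℕ), Res ρ σ →
      ∀ X : ℕ, ∀ p ∈ BoxX K ρ σ X, (∀ (S : Idx m) (τ : ∀ t, Ty (n t)),
          (SelRoot ((DX p.1 p.2 S.1 τ : 𝓞 K) : K)).ncard = 3) → P p) :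
    ∃ c : ℝ, 0 < c ∧ ∃ X₀ : ℕ, ∀ X : ℕ, X₀ ≤ X → c * ((AllX K m n X).ncard : ℝ) ≤
      ({p | p ∈ AllX K m n X ∧ P p}.ncard : ℝ) := by
  obtain ⟨-, -, ⟨ρ, σ, h⟩, hbox⟩ := final_XP K m hm r n hn
  obtain ⟨⟨c, hc, X₀, hlow⟩, -, -, hlim⟩ := hbox ρ σ h
  obtain ⟨-, -, c2, c3, -⟩ := Pool.Agent.Y703.XL.t_C9
  obtain ⟨N, hN⟩ : ∃ N : ℕ, N = m.choose ((m - 3) / 2) * ∏ t, (1 + (n t).choose (n t / 2)) :=
    ⟨_, rfl⟩
  rw [← hN] at hlim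
  have hN1 : 1 ≤ N := by
    rw [hN]
    refine Nat.mul_pos (Nat.choose_pos (by omega)) (Finset.prod_pos fun t _ => by omega)
  have hlt : (0.639 : ℝ) ^ N < c9 ^ N := pow_lt_pow_left₀ c3 (by norm_num) (by omega)
  have hev := hlim.eventually (lt_mem_nhds hlt)
  obtain ⟨X₁, hX1⟩ := Filter.eventually_atTop.1 hev
  obtain ⟨p, hp⟩ : ∃ p : ℝ, p = 0.639 ^ N * c := ⟨_, rfl⟩
  have hp0 : 0 < p := by rw [hp]; positivity
  obtain ⟨M, hM⟩ : ∃ M : ℕ, M = m + ∑ t, n t := ⟨_, rfl⟩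
  refine ⟨p / 16 ^ M, by positivity, max X₀ (max X₁ 1), fun X hXX => ?_⟩
  have a1 : X₀ ≤ X := le_trans (le_max_left _ _) hXX
  have a2 : X₁ ≤ X := le_trans (le_trans (le_max_left _ _) (le_max_right _ _)) hXX
  have a3 : 1 ≤ X := le_trans (le_trans (le_max_right _ _) (le_max_right _ _)) hXX
  obtain ⟨hfin, h1⟩ := allX_count (K := K) (m := m) (n := n) X a3
  rw [card_im, ← hM] at h1
  have h4 : ({p | p ∈ BoxX K ρ σ X ∧ ∀ (S : Idx m) (τ : ∀ t, Ty (n t)),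
          (SelRoot ((DX p.1 p.2 S.1 τ : 𝓞 K) : K)).ncard = 3}.ncard : ℝ) ≤
      ({p | p ∈ AllX K m n X ∧ P p}.ncard : ℝ) := by
    have h5 : {p | p ∈ BoxX K ρ σ X ∧ ∀ (S : Idx m) (τ : ∀ t, Ty (n t)),
          (SelRoot ((DX p.1 p.2 S.1 τ : 𝓞 K) : K)).ncard = 3} ⊆
        {p | p ∈ AllX K m n X ∧ P p} := by
      rintro q ⟨g1, g2⟩
      exact ⟨⟨fun i => ⟨(g1.1 i).2.1.ne_zero, (g1.1 i).2.2.1⟩,
        fun t i => ⟨(g1.2 t i).2.1.ne_zero, (g1.2 t i).2.2.1⟩⟩, hP ρ σ h X q g1 g2⟩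
    exact_mod_cast Set.ncard_le_ncard h5 (hfin.subset fun a ha => ha.1)
  have h7 := hlow X a1
  rw [← hM] at h7
  have hpos : (0 : ℝ) < ((BoxX K ρ σ X).ncard : ℝ) := by
    refine lt_of_lt_of_le ?_ h7
    have : (1 : ℝ) ≤ X := by exact_mod_cast a3
    positivity
  have h6 := hX1 X a2
  rw [lt_div_iff₀ hpos] at h6
  have h8 : p * (X : ℝ) ^ M ≤ 0.639 ^ N * ((BoxX K ρ σ X).ncard : ℝ) := by
    rw [hp, mul_assoc]
    exact mul_le_mul_of_nonneg_left h7 (by positivity)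
  calc p / 16 ^ M * ((AllX K m n X).ncard : ℝ) ≤
      p / 16 ^ M * (16 * X) ^ M := mul_le_mul_of_nonneg_left h1 (by positivity)
    _ = p * (X : ℝ) ^ M := by
      rw [mul_pow]
      field_simp
    _ ≤ _ := h8.trans (h6.le.trans h4)

/-- **The main theorem.** -/
theorem final_XB (K : Type) [Field K] [NumberField K] [IsCyclotomicExtension {3} ℚ K] (m : ℕ)
    (hm : m = 3 ∨ m = 5 ∨ m = 7) (r : ℕ) (n : Fin r → ℕ) (hn : ∀ t, n t = 2 ∨ n t = 4) :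
    (∀ (a : Fin m → 𝓞 K) (b : ∀ t : Fin r, Fin (n t) → 𝓞 K), MotX a b ∧
      ∃ (ι : Type) (_ : Fintype ι) (deg : ι → ℕ) (α : HeightOneSpectrum (𝓞 K) → ι → ℂ),
        ∀ v, Gdx a b v → IsFrobX a b v deg (α v)) ∧
    (∃ c : ℝ, 0 < c ∧ ∃ X₀ : ℕ, ∀ X : ℕ, X₀ ≤ X → c * ((AllX K m n X).ncard : ℝ) ≤
      ({p | p ∈ AllX K m n X ∧ OrderFormula p.1 p.2}.ncard : ℝ)) ∧
    (∃ (ρ : Fin m → ℕ) (σ : ∀ t : Fin r, Fin (n t) → ℕ), Res ρ σ) ∧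
    ∀ (ρ : Fin m → ℕ) (σ : ∀ t : Fin r, Fin (n t) → ℕ), Res ρ σ →
      (∃ c : ℝ, 0 < c ∧ ∃ X₀ : ℕ, ∀ X : ℕ, X₀ ≤ X →
        c * (X : ℝ) ^ (m + ∑ t, n t) ≤ ((BoxX K ρ σ X).ncard : ℝ)) ∧
      (∀ X : ℕ, ∀ p ∈ BoxX K ρ σ X, (∀ (S : Idx m) (τ : ∀ t, Ty (n t)),
        (SelRoot ((DX p.1 p.2 S.1 τ : 𝓞 K) : K)).ncard = 3) → OrderFormula p.1 p.2) ∧
      Filter.Tendsto (fun X : ℕ =>
        ({p | p ∈ BoxX K ρ σ X ∧ ∀ (S : Idx m) (τ : ∀ t, Ty (n t)),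
          (SelRoot ((DX p.1 p.2 S.1 τ : 𝓞 K) : K)).ncard = 3}.ncard : ℝ) /
        ((BoxX K ρ σ X).ncard : ℝ)) Filter.atTop
        (nhds ((∏' i : ℕ, (1 - (1 / 3 : ℝ) ^ (2 * i + 1))) ^
          (m.choose ((m - 3) / 2) * ∏ t, (1 + (n t).choose (n t / 2))))) := by
  obtain ⟨h1, -, h3, h4⟩ := final_XP K m hm r n hn
  refine ⟨h1, pos_prop K m hm r n hn (fun p => OrderFormula p.1 p.2)
    fun ρ σ h X p hp hs => order_all K hm hn h hp hs, h3, fun ρ σ h => ?_⟩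
  obtain ⟨g1, -, -, g4⟩ := h4 ρ σ h
  exact ⟨g1, fun X p hp hs => order_all K hm hn h hp hs, g4⟩

end Pool.Agent.H451.XB
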